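import Mathlib

/-! The sigma-algebra generated by the additive subgroups of the reals. -/

namespace Pool.Agent.W913.SG

open Set Cardinal MeasureTheory

/-- the sigma-algebra on `ℝ` generated by all additive subgroups -/
@[reducible] def grp : MeasurableSpace ℝ :=
  MeasurableSpace.generateFrom {S : Set ℝ | ∃ G : AddSubgroup ℝ, (G : Set ℝ) = S}

theorem grp_subgroup (G : AddSubgroup ℝ) : MeasurableSet[grp] (G : Set ℝ) :=
  MeasurableSpace.measurableSet_generateFrom ⟨G, rfl⟩

/-- all subsets of `T × T` are in the product of the power sets -/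
def Full (T : Type) : Prop :=
  ∀ E : Set (T × T), MeasurableSet[(⊤ : MeasurableSpace T).prod ⊤] E

theorem Full.of_injective {T T' : Type} (h : Full T') {f : T → T'} (hf : Function.Injective f) :
    Full T := by
  intro E
  have h1 := h ((fun p : T × T => (f p.1, f p.2)) '' E)
  have hm : @Measurable (T × T) (T' × T') ((⊤ : MeasurableSpace T).prod ⊤)
      ((⊤ : MeasurableSpace T').prod ⊤) (fun p : T × T => (f p.1, f p.2)) := by
    let _ : MeasurableSpace T := ⊤
    let _ : MeasurableSpace T' := ⊤
    exact (measurable_from_top.comp measurable_fst).prodMk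
      (measurable_from_top.comp measurable_snd)
  have h2 := hm h1
  have h3 : (fun p : T × T => (f p.1, f p.2)) ⁻¹' ((fun p : T × T => (f p.1, f p.2)) '' E) = E := by
    apply preimage_image_eq
    intro p p' hp
    simp only [Prod.mk.injEq] at hp
    exact Prod.ext (hf hp.1) (hf hp.2)
  rw [h3] at h2
  exact h2

/-- finite powers -/
theorem Full.fin {T : Type} [Infinite T] (h : Full T) (n : ℕ) :
    (MeasurableSpace.pi (m := fun _ => (⊤ : MeasurableSpace T)) :
      MeasurableSpace (Fin n → T)) = ⊤ := by
  induction n with
  | zero =>
    rw [eq_top_iff]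
    intro E _
    have : E = ∅ ∨ E = Set.univ := by
      rcases E.eq_empty_or_nonempty with h | ⟨x, hx⟩
      · exact Or.inl h
      · right
        rw [eq_univ_iff_forall]
        intro y
        rwa [Subsingleton.elim y x]
    rcases this with rfl | rfl
    · exact @MeasurableSet.empty _ (MeasurableSpace.pi (m := fun _ => (⊤ : MeasurableSpace T)))
    · exact @MeasurableSet.univ _ (MeasurableSpace.pi (m := fun _ => (⊤ : MeasurableSpace T)))
  | succ n ih =>
    rw [eq_top_iff]
    intro E _
    -- inject `Fin n → T` into `T`
    have hinj : ∃ g : (Fin n → T) → T, Function.Injective g := by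
      have h1 : #(Fin n → T) ≤ #T := by
        rw [← Cardinal.power_def, Cardinal.mk_fin]
        exact Cardinal.power_nat_le (Cardinal.aleph0_le_mk T)
      obtain ⟨g⟩ := h1
      exact ⟨g, g.injective⟩
    obtain ⟨g, hg⟩ := hinj
    let ψ : (Fin (n + 1) → T) → T × T := fun x => (g (fun i => x i.castSucc), x (Fin.last n))
    have hψ : Function.Injective ψ := by
      intro x y hxy
      simp only [ψ, Prod.mk.injEq] at hxy
      have h1 := hg hxy.1
      funext i
      refine Fin.lastCases ?_ (fun i => ?_) i
      · exact hxy.2
      · exact congrFun h1 i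
    have hm : @Measurable (Fin (n + 1) → T) (T × T)
        (MeasurableSpace.pi (m := fun _ => (⊤ : MeasurableSpace T)))
        ((⊤ : MeasurableSpace T).prod ⊤) ψ := by
      let _ : MeasurableSpace T := ⊤
      have hgm : Measurable g := by
        intro A _
        have h3 : MeasurableSet[(⊤ : MeasurableSpace (Fin n → T))] (g ⁻¹' A) := trivial
        rw [← ih] at h3
        exact h3
      refine Measurable.prodMk (hgm.comp ?_) (measurable_pi_apply _)
      exact measurable_pi_iff.mpr (fun i => measurable_pi_apply _)
    have h2 := hm (h (ψ '' E))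
    rw [preimage_image_eq E hψ] at h2
    exact h2

end Pool.Agent.W913.SG
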