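import Pool.Agent.W913.SG.Basic

namespace Pool.Agent.W913.SG

open Set Cardinal MeasureTheory

variable {ι : Type} (b : Module.Basis ι ℚ ℝ) (j : ι → ℝ)

/-- elements with vanishing coordinates on `A` -/
def van (A : Set ι) : AddSubgroup ℝ where
  carrier := {x | ∀ h ∈ A, b.repr x h = 0}
  add_mem' := by
    intro x y hx hy h hh
    rw [map_add, Finsupp.add_apply, hx h hh, hy h hh, add_zero]
  zero_mem' := by
    intro h _
    simp
  neg_mem' := by
    intro x hx h hh
    rw [map_neg, Finsupp.neg_apply, hx h hh, neg_zero]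

theorem meas_van (A : Set ι) : MeasurableSet[grp] {x | ∀ h ∈ A, b.repr x h = 0} :=
  grp_subgroup (van b A)

theorem meas_meets (A : Set ι) : MeasurableSet[grp] {x | ∃ h ∈ A, b.repr x h ≠ 0} := by
  have : {x | ∃ h ∈ A, b.repr x h ≠ 0} = {x | ∀ h ∈ A, b.repr x h = 0}ᶜ := by
    ext x
    simp
  rw [this]
  exact (meas_van b A).compl

/-- the cells -/
noncomputable def c (m : ℕ) (h : ι) : ℤ := ⌊(2 : ℝ) ^ m * j h⌋

theorem c_ne (hj : Function.Injective j) {h h' : ι} (hne : h ≠ h') :
    ∀ᶠ m in Filter.atTop, c j m h ≠ c j m h' := by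
  have h0 : 0 < |j h - j h'| := abs_pos.mpr (sub_ne_zero.mpr (fun e => hne (hj e)))
  have h1 : Filter.Tendsto (fun m : ℕ => (2 : ℝ) ^ m) Filter.atTop Filter.atTop :=
    tendsto_pow_atTop_atTop_of_one_lt (by norm_num)
  filter_upwards [h1.eventually_gt_atTop (1 / |j h - j h'|)] with m hm
  intro heq
  have h2 := Int.abs_sub_lt_one_of_floor_eq_floor heq
  rw [← mul_sub, abs_mul, abs_of_pos (by positivity : (0 : ℝ) < 2 ^ m)] at h2
  rw [div_lt_iff₀ h0] at hm
  linarith

/-- the support is separated by the cells of level `m` -/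
def sep (m : ℕ) : Set ℝ :=
  {x | ∀ h h', b.repr x h ≠ 0 → b.repr x h' ≠ 0 → c j m h = c j m h' → h = h'}

theorem meas_sep (hj : Function.Injective j) (m : ℕ) : MeasurableSet[grp] (sep b j m) := by
  have hc : (sep b j m)ᶜ = ⋃ q : ℕ × ℤ × ℤ × ℤ, ⋃ _ : q.2.1 ≠ q.2.2.1,
      ({x | ∃ h ∈ {h | c j q.1 h = q.2.1 ∧ c j m h = q.2.2.2}, b.repr x h ≠ 0} ∩
        {x | ∃ h ∈ {h | c j q.1 h = q.2.2.1 ∧ c j m h = q.2.2.2}, b.repr x h ≠ 0}) := by
    ext x
    simp only [mem_compl_iff, sep, mem_ofPred_eq, mem_iUnion, mem_inter_iff, exists_prop]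
    constructor
    · intro h
      push Not at h
      obtain ⟨h, h', h1, h2, h3, h4⟩ := h
      obtain ⟨m', hm'⟩ := (c_ne j hj h4).exists
      exact ⟨(m', c j m' h, c j m' h', c j m h), hm', ⟨h, ⟨rfl, rfl⟩, h1⟩,
        ⟨h', ⟨rfl, h3.symm⟩, h2⟩⟩
    · rintro ⟨q, hq, ⟨h, ⟨h1, h2⟩, h3⟩, ⟨h', ⟨h1', h2'⟩, h3'⟩⟩ hall
      have := hall h h' h3 h3' (h2.trans h2'.symm)
      rw [this] at h1
      exact hq (h1.symm.trans h1')
  have h1 : MeasurableSet[grp] (sep b j m)ᶜ := by
    rw [hc]
    refine MeasurableSet.iUnion fun q => MeasurableSet.iUnion fun _ => ?_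
    exact (meas_meets b _).inter (meas_meets b _)
  have h2 := h1.compl
  rwa [compl_compl] at h2

/-- coordinates summed over the cells -/
noncomputable def phi (m : ℕ) : ℝ →ₗ[ℚ] (ℤ →₀ ℚ) :=
  (Finsupp.lmapDomain ℚ ℚ (c j m)) ∘ₗ b.repr.toLinearMap

theorem meas_phi (m : ℕ) {v : ℤ →₀ ℚ} (hv : v ≠ 0) :
    MeasurableSet[grp] {x | phi b j m x = v ∨ phi b j m x = -v} := by
  let G : ℕ → AddSubgroup ℝ := fun r =>
    (AddSubgroup.zmultiples ((r : ℤ) • v)).comap (phi b j m).toAddMonoidHom
  have hmem : ∀ r x, x ∈ (G r : Set ℝ) ↔ ∃ k : ℤ, k • ((r : ℤ) • v) = phi b j m x := by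
    intro r x
    simp only [G, SetLike.mem_coe, AddSubgroup.mem_comap, AddSubgroup.mem_zmultiples_iff]
    rfl
  have heq : {x | phi b j m x = v ∨ phi b j m x = -v} =
      (G 1 : Set ℝ) \ ⋃ r : ℕ, ⋃ _ : r ≠ 1, (G r : Set ℝ) := by
    ext x
    simp only [mem_sdiff, mem_iUnion, exists_prop, not_exists, not_and, mem_ofPred_eq, hmem]
    have inj : ∀ a a' : ℤ, a • v = a' • v → a = a' := fun a a' h =>
      smul_left_injective ℤ hv h
    constructor
    · intro h
      constructor
      · rcases h with h | h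
        · exact ⟨1, by rw [h]; simp⟩
        · exact ⟨-1, by rw [h]; simp⟩
      · intro r hr k hk
        rw [smul_smul] at hk
        rcases h with h | h
        · rw [h] at hk
          have := inj (k * r) 1 (by rw [hk, one_smul])
          have h2 : (r : ℤ) ∣ 1 := ⟨k, by rw [← this]; ring⟩
          have h3 := Int.natAbs_dvd_natAbs.mpr h2
          simp only [Int.natAbs_natCast, Int.natAbs_one, Nat.dvd_one] at h3
          exact hr h3
        · rw [h] at hk
          have := inj (k * r) (-1) (by rw [hk, neg_one_smul])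
          have h2 : (r : ℤ) ∣ 1 := ⟨-k, by linarith⟩
          have h3 := Int.natAbs_dvd_natAbs.mpr h2
          simp only [Int.natAbs_natCast, Int.natAbs_one, Nat.dvd_one] at h3
          exact hr h3
    · rintro ⟨⟨k, hk⟩, h2⟩
      have hk' : k • v = phi b j m x := by rw [← hk]; simp
      by_cases hk1 : k.natAbs = 1
      · rcases Int.natAbs_eq k with h | h
        · left
          rw [← hk', h, hk1]
          simp
        · right
          rw [← hk', h, hk1]
          simp
      · exfalso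
        rcases Int.natAbs_eq k with h | h
        · exact h2 k.natAbs hk1 1 (by rw [one_smul, ← h, hk'])
        · refine h2 k.natAbs hk1 (-1) ?_
          rw [neg_one_smul, ← neg_smul, ← h, hk']
  rw [heq]
  exact (grp_subgroup _).diff (MeasurableSet.iUnion fun r => MeasurableSet.iUnion fun _ =>
    grp_subgroup _)

theorem phi_apply_of_sep {m : ℕ} {x : ℝ} (hx : x ∈ sep b j m) {h : ι} (hh : b.repr x h ≠ 0) :
    phi b j m x (c j m h) = b.repr x h := by
  classical
  show Finsupp.mapDomain (c j m) (b.repr x) (c j m h) = b.repr x h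
  rw [Finsupp.mapDomain, Finsupp.sum_apply, Finsupp.sum, Finset.sum_eq_single h]
  · simp
  · intro h' hh' hne
    rw [Finsupp.single_apply, if_neg]
    intro heq
    exact hne (hx h' h (Finsupp.mem_support_iff.mp hh') hh heq)
  · intro hn
    rw [Finsupp.notMem_support_iff] at hn
    exact absurd hn hh

theorem phi_support {m : ℕ} {x : ℝ} {k : ℤ} (hk : phi b j m x k ≠ 0) :
    ∃ h, b.repr x h ≠ 0 ∧ c j m h = k := by
  classical
  by_contra hcon
  push Not at hcon
  apply hk
  show Finsupp.mapDomain (c j m) (b.repr x) k = 0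
  rw [Finsupp.mapDomain, Finsupp.sum_apply, Finsupp.sum]
  apply Finset.sum_eq_zero
  intro h hh
  rw [Finsupp.single_apply, if_neg (hcon h (Finsupp.mem_support_iff.mp hh))]

theorem exists_sep (hj : Function.Injective j) (x : ℝ) : ∃ m, x ∈ sep b j m := by
  classical
  have h1 : ∀ᶠ m in Filter.atTop, ∀ p ∈ (b.repr x).support ×ˢ (b.repr x).support,
      p.1 ≠ p.2 → c j m p.1 ≠ c j m p.2 := by
    rw [Filter.eventually_all_finset]
    intro p _
    by_cases hp : p.1 = p.2
    · simp [hp]
    · exact (c_ne j hj hp).mono (fun m hm _ => hm)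
  obtain ⟨m, hm⟩ := h1.exists
  refine ⟨m, fun h h' hh hh' hc => ?_⟩
  by_contra hne
  exact hm (h, h') (by
    rw [Finset.mem_product, Finsupp.mem_support_iff, Finsupp.mem_support_iff]
    exact ⟨hh, hh'⟩) hne hc

theorem sym_meas (hj : Function.Injective j) (S : Set ι) [Infinite S] (hS : Full S)
    {Z : Set ℝ} (hZ : ∀ z ∈ Z, -z ∈ Z) (hZS : ∀ z ∈ Z, ∀ h ∉ S, b.repr z h = 0) :
    MeasurableSet[grp] Z := by
  classical
  let VS : Set ℝ := {x | ∀ h ∈ Sᶜ, b.repr x h = 0}
  let P : ℕ → (ℤ →₀ ℚ) → Set ℝ := fun m v =>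
    (sep b j m ∩ {x | phi b j m x = v ∨ phi b j m x = -v}) ∩ VS
  have hP : ∀ m v, v ≠ 0 → MeasurableSet[grp] (P m v) := fun m v hv =>
    ((meas_sep b j hj m).inter (meas_phi b j m hv)).inter (meas_van b _)
  -- each piece
  have hpiece : ∀ m v, v ≠ 0 → MeasurableSet[grp] (Z ∩ P m v) := by
    intro m v hv
    let n := v.support.card
    let e : Fin n ≃ v.support := v.support.equivFin.symm
    -- the section
    have hsec : ∀ x ∈ P m v, ∀ i : Fin n, ∃ h : S, b.repr x h ≠ 0 ∧ c j m h = (e i : ℤ) := by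
      rintro x ⟨⟨hx1, hx2⟩, hx3⟩ i
      have hne : phi b j m x (e i : ℤ) ≠ 0 := by
        have hvi : v (e i : ℤ) ≠ 0 := Finsupp.mem_support_iff.mp (e i).2
        rcases hx2 with h | h
        · rw [h]; exact hvi
        · rw [h, Finsupp.neg_apply]; exact neg_ne_zero.mpr hvi
      obtain ⟨h, hh1, hh2⟩ := phi_support b j hne
      have hhS : h ∈ S := by
        by_contra hcon
        exact hh1 (hx3 h hcon)
      exact ⟨⟨h, hhS⟩, hh1, hh2⟩
    let s : P m v → (Fin n → S) := fun x i => (hsec x.1 x.2 i).choose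
    have hs : ∀ x i, b.repr x.1 (s x i) ≠ 0 ∧ c j m (s x i) = (e i : ℤ) := fun x i =>
      (hsec x.1 x.2 i).choose_spec
    let mS : MeasurableSpace S := ⊤
    let mP : MeasurableSpace (P m v) := MeasurableSpace.comap Subtype.val grp
    have hsm : @Measurable (P m v) (Fin n → S) mP (MeasurableSpace.pi (m := fun _ => mS)) s := by
      refine measurable_pi_iff.mpr (fun i => ?_)
      intro B _
      refine ⟨{x | ∀ h ∈ {h : ι | c j m h = (e i : ℤ) ∧ ∀ hS : h ∈ S, (⟨h, hS⟩ : S) ∉ B},
        b.repr x h = 0}, meas_van b _, ?_⟩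
      ext x
      simp only [mem_preimage, mem_ofPred_eq]
      constructor
      · intro hx
        by_contra hcon
        exact (hs x i).1 (hx _ ⟨(hs x i).2, fun _ => hcon⟩)
      · rintro hx h ⟨h1, h2⟩
        by_contra hne
        have h3 : h = (s x i : ι) := x.2.1.1 h _ hne (hs x i).1 (h1.trans (hs x i).2.symm)
        apply h2 (by rw [h3]; exact (s x i).2)
        have : (⟨h, by rw [h3]; exact (s x i).2⟩ : S) = s x i := Subtype.ext h3
        rw [this]
        exact hx
    -- reconstruct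
    have hrec : ∀ x : P m v, ∃ ε : ℚ, (ε = 1 ∨ ε = -1) ∧
        b.repr x.1 = ε • ∑ i : Fin n, Finsupp.single (s x i : ι) (v (e i : ℤ)) := by
      intro x
      obtain ⟨ε, hε, hx⟩ : ∃ ε : ℚ, (ε = 1 ∨ ε = -1) ∧ phi b j m x.1 = ε • v := by
        rcases x.2.1.2 with h | h
        · exact ⟨1, Or.inl rfl, by rw [h, one_smul]⟩
        · exact ⟨-1, Or.inr rfl, by rw [h, neg_one_smul]⟩
      have hε0 : ε ≠ 0 := by rcases hε with h | h <;> rw [h] <;> norm_num
      refine ⟨ε, hε, ?_⟩
      ext h
      rw [Finsupp.smul_apply, Finsupp.finsetSum_apply, smul_eq_mul]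
      by_cases hh : b.repr x.1 h = 0
      · rw [hh, Finset.sum_eq_zero, mul_zero]
        intro i _
        rw [Finsupp.single_apply, if_neg]
        intro heq
        rw [← heq] at hh
        exact (hs x i).1 hh
      · have h1 := phi_apply_of_sep b j x.2.1.1 hh
        rw [hx, Finsupp.smul_apply, smul_eq_mul] at h1
        have h2 : c j m h ∈ v.support := by
          rw [Finsupp.mem_support_iff]
          intro h0
          rw [h0, mul_zero] at h1
          exact hh h1.symm
        set i : Fin n := e.symm ⟨c j m h, h2⟩ with hi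
        have h3 : (e i : ℤ) = c j m h := by rw [hi, Equiv.apply_symm_apply]
        have h4 : (s x i : ι) = h := x.2.1.1 _ _ (hs x i).1 hh ((hs x i).2.trans h3)
        rw [Finset.sum_eq_single i]
        · rw [Finsupp.single_apply, if_pos h4, h3, h1]
        · intro i' _ hne
          rw [Finsupp.single_apply, if_neg]
          intro heq
          apply hne
          apply e.injective
          apply Subtype.ext
          rw [← (hs x i').2, heq, h3]
        · intro hn
          exact absurd (Finset.mem_univ i) hn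
    have hE := hsm (by
      rw [hS.fin n]
      trivial : MeasurableSet[MeasurableSpace.pi (m := fun _ => mS)]
        (s '' {x : P m v | x.1 ∈ Z}))
    obtain ⟨D, hD, hDE⟩ := hE
    have hfin : Z ∩ P m v = D ∩ P m v := by
      ext x
      constructor
      · rintro ⟨hxZ, hxP⟩
        refine ⟨?_, hxP⟩
        have : (⟨x, hxP⟩ : P m v) ∈ Subtype.val ⁻¹' D := by
          rw [hDE]
          exact ⟨⟨x, hxP⟩, hxZ, rfl⟩
        exact this
      · rintro ⟨hxD, hxP⟩
        refine ⟨?_, hxP⟩
        have : (⟨x, hxP⟩ : P m v) ∈ s ⁻¹' (s '' {x : P m v | x.1 ∈ Z}) := by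
          rw [← hDE]
          exact hxD
        obtain ⟨y, hyZ, hy⟩ := this
        obtain ⟨ε, hε, hx⟩ := hrec ⟨x, hxP⟩
        obtain ⟨ε', hε', hy'⟩ := hrec y
        rw [hy] at hy'
        have hxy : x = (ε * ε'⁻¹) • y.1 := by
          apply b.repr.injective
          rw [map_smul, hy', hx, smul_smul]
          congr 1
          rcases hε' with h | h <;> rw [h] <;> norm_num
        rcases hε with h | h <;> rcases hε' with h' | h' <;> rw [h, h'] at hxy <;>
          norm_num at hxy
        · rw [hxy]; exact hyZ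
        · rw [hxy]; exact hZ _ hyZ
        · rw [hxy]; exact hZ _ hyZ
        · rw [hxy]; exact hyZ
    rw [hfin]
    exact hD.inter (hP m v hv)
  have hcov : Z = (Z ∩ {0}) ∪ ⋃ q : ℕ × (ℤ →₀ ℚ), ⋃ _ : q.2 ≠ 0, Z ∩ P q.1 q.2 := by
    ext x
    constructor
    · intro hx
      by_cases hx0 : x = 0
      · exact Or.inl ⟨hx, hx0⟩
      · right
        obtain ⟨m, hm⟩ := exists_sep b j hj x
        have hphi : phi b j m x ≠ 0 := by
          have h1 : b.repr x ≠ 0 := fun h => hx0 (b.repr.map_eq_zero_iff.mp h)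
          obtain ⟨h, hh⟩ := Finsupp.ne_iff.mp h1
          rw [Finsupp.zero_apply] at hh
          intro h0
          have h2 := phi_apply_of_sep b j hm hh
          rw [h0, Finsupp.zero_apply] at h2
          exact hh h2.symm
        simp only [mem_iUnion]
        exact ⟨(m, phi b j m x), hphi, hx, ⟨hm, Or.inl rfl⟩, fun h hh => hZS x hx h hh⟩
    · rintro (h | h)
      · exact h.1
      · simp only [mem_iUnion] at h
        obtain ⟨q, _, h, _⟩ := h
        exact h
  rw [hcov]
  refine MeasurableSet.union ?_ (MeasurableSet.iUnion fun q => MeasurableSet.iUnion fun hq =>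
    hpiece q.1 q.2 hq)
  by_cases h0 : (0 : ℝ) ∈ Z
  · have : Z ∩ {0} = ((⊥ : AddSubgroup ℝ) : Set ℝ) := by
      ext x
      simp only [mem_inter_iff, mem_singleton_iff, AddSubgroup.coe_bot]
      constructor
      · exact fun h => h.2
      · intro h
        exact ⟨by rw [h]; exact h0, h⟩
    rw [this]
    exact grp_subgroup _
  · have : Z ∩ {0} = ∅ := by
      ext x
      simp only [mem_inter_iff, mem_singleton_iff, mem_empty_iff_false, iff_false, not_and]
      rintro hx rfl
      exact h0 hx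
    rw [this]
    exact @MeasurableSet.empty _ grp

end Pool.Agent.W913.SG
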